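import Mathlib
import Pool.Agent.H55.BG.AllBG

set_option autoImplicit false

/-!
The fate and the shape of the trajectories of the `3x+1` map on the integers are independent.

The fate of an integer is described by the sets `P` which are invariant under `T`, for example the integers whose
trajectory enters a given cycle, or any cycle other than the five known ones, or those with an unbounded trajectory.
The shape is the path `t ↦ dev x ⌊t · 2 log |x| / log (4/3)⌋ / scale x`, where
`dev x k = log |T^k x| - log |x| + (k/2) log (4/3)` is the deviation of the trajectory from the line which it should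
follow; in the unit of time which is used here this line reaches `1` at the time `t = 1`.
-/

namespace Pool.Agent.Results.MP_edb5be_nt.FateAndShape

open Filter Topology MeasureTheory ProbabilityTheory
open scoped NNReal

/-- The `3x+1` map. -/
def T (x : ℤ) : ℤ := if x % 2 = 0 then x / 2 else (3 * x + 1) / 2

/-- The set `P` of integers is invariant under `T`. -/
def Invariant (P : Set ℤ) : Prop := ∀ x, x ∈ P ↔ T x ∈ P

/-- The number of the `n`, `1 ≤ n ≤ N`, with `s n ∈ P` (`s` is a sign). -/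
noncomputable def count (s : ℤ) (P : Set ℤ) (N : ℕ) : ℕ := {n : ℕ | 1 ≤ n ∧ n ≤ N ∧ s * (n : ℤ) ∈ P}.ncard

/-- Among the integers of sign `s` the set `P` has the natural density `δ`. -/
def HasDensity (s : ℤ) (P : Set ℤ) (δ : ℝ) : Prop := Tendsto (fun N : ℕ => (count s P N : ℝ) / N) atTop (𝓝 δ)

/-- Among the integers of sign `s` the set `P` has the lower density `0`. -/
def Rare (s : ℤ) (P : Set ℤ) : Prop := ∀ η : ℝ, 0 < η → ∃ᶠ N : ℕ in atTop, (count s P N : ℝ) ≤ η * N

/-- `log |T^k x| - log |x| + (k / 2) log (4 / 3)` -/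
noncomputable def dev (x : ℤ) (k : ℕ) : ℝ :=
  Real.log |((T^[k] x : ℤ) : ℝ)| - Real.log |(x : ℝ)| + k / 2 * Real.log (4 / 3)

/-- `((log 3) / 2) √(2 log |x| / log (4 / 3))` -/
noncomputable def scale (x : ℤ) : ℝ := Real.log 3 / 2 * Real.sqrt (2 * Real.log |(x : ℝ)| / Real.log (4 / 3))

/-- The shape of the trajectory of `x`: its rescaled deviation, in units of the expected time `2 log |x| / log (4/3)`
until it reaches small numbers, at the time `t`. -/
noncomputable def path (x : ℤ) (t : ℝ) : ℝ := dev x ⌊t * (2 * Real.log |(x : ℝ)| / Real.log (4 / 3))⌋₊ / scale x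

/-- The functional `F` is bounded, and uniformly continuous in the sup norm on `[0, a]`. -/
def IsTest (a : ℝ) (F : (ℝ → ℝ) → ℝ) : Prop := (∃ M : ℝ, ∀ f, |F f| ≤ M) ∧ ∀ ε : ℝ, 0 < ε → ∃ η : ℝ, 0 < η ∧
  ∀ f g : ℝ → ℝ, (∀ t, 0 ≤ t → t ≤ a → |f t - g t| ≤ η) → |F f - F g| ≤ ε

/-- `f` is continuous on `[0, 1]` and `f 0 = 0`. -/
def IsProfile (f : ℝ → ℝ) : Prop := ContinuousOn f (Set.Icc 0 1) ∧ f 0 = 0

/-- The integers `x` which follow `f`: the shape of the trajectory is `f` on `[0, a]`, up to `ε`. -/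
def Follow (f : ℝ → ℝ) (a ε : ℝ) : Set ℤ := {x | ∀ t : ℝ, 0 ≤ t → t ≤ a → |path x t - f t| ≤ ε}

/-- The elements of the five known cycles. -/
def Known : Set ℤ := {1, 2, 0, -1, -5, -7, -10, -17, -25, -37, -55, -82, -41, -61, -91, -136, -68, -34}

/-- The integers whose trajectory enters a cycle other than the five known ones. -/
def Other : Set ℤ := {x | ∃ k p : ℕ, 1 ≤ p ∧ T^[p] (T^[k] x) = T^[k] x ∧ T^[k] x ∉ Known}

theorem other_inv : Invariant Other := by
  intro x
  constructor
  · rintro ⟨k, p, hp, h1, h2⟩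
    rcases k with _ | k
    · have e : T^[p - 1] (T x) = x := by
        rw [← Function.iterate_succ_apply]
        have : (p - 1).succ = p := by omega
        rw [this]
        exact h1
      refine ⟨p - 1, p, hp, ?_, ?_⟩
      · rw [e]
        exact h1
      · rw [e]
        exact h2
    · rw [Function.iterate_succ_apply] at h1 h2
      exact ⟨k, p, hp, h1, h2⟩
  · rintro ⟨k, p, hp, h1, h2⟩
    refine ⟨k + 1, p, hp, ?_, ?_⟩
    · rw [Function.iterate_succ_apply]
      exact h1
    · rw [Function.iterate_succ_apply]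
      exact h2

open Classical in
/-- FATE AND SHAPE ARE INDEPENDENT. Let `s` be a sign.

(1) Let `P` be a set of integers which is invariant under `T`. Among the integers of sign `s` it has a natural density
`δ`, positive if it contains one of them, and `1` only if it contains all (this is known). For every Brownian motion `B`,
every `0 < a < 1` and every bounded functional `F` which is uniformly continuous in the sup norm on `[0, a]`, the sum of
`F (path (s n))` over the `n ≤ N` with `s n ∈ P`, divided by `N`, tends to `δ · E F(B)`.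

Let `f` be continuous on `[0, 1]`, `f 0 = 0`, `0 < a < 1` and `ε > 0`.

(2) There is `c > 0` such that for ALL invariant `P`, of density `δ`, and all large `N`, for at least `c δ N` of the
`n ≤ N` the integer `s n` is in `P` and follows `f` on `[0, a]`, up to `ε`.

(3) An invariant `P` contains all integers of sign `s` if and only if the integers which are not in `P` and follow `f` on
`[0, a]` up to `ε` have the lower density `0`.

(4) All cycles of `T` in the integers of sign `s` are known if and only if the integers of sign `s` which follow `f` on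
`[0, a]` up to `ε` and whose trajectory enters another cycle have the lower density `0`.

(5) The five known cycles are the only cycles of `T` on the integers if and only if this holds for both signs. -/
theorem result :
    (∀ s : ℤ, (s = 1 ∨ s = -1) → ∀ P : Set ℤ, Invariant P → ∃ δ : ℝ, 0 ≤ δ ∧ δ ≤ 1 ∧ HasDensity s P δ ∧
      (0 < δ ↔ ∃ x, x ∈ P ∧ 0 < s * x) ∧ (δ = 1 ↔ ∀ x, 0 < s * x → x ∈ P) ∧
      ∀ (Ω : Type) [MeasurableSpace Ω] (μ : Measure Ω) [IsProbabilityMeasure μ] (B : ℝ≥0 → Ω → ℝ),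
        IsBrownianReal B μ → ∀ a : ℝ, 0 < a → a < 1 → ∀ F : (ℝ → ℝ) → ℝ, IsTest a F →
        Tendsto (fun N : ℕ => (∑ n ∈ (Finset.Icc 1 N).filter (fun n : ℕ => s * (n : ℤ) ∈ P), F (path (s * n))) / N)
          atTop (𝓝 (δ * ∫ ω, F (fun t => B t.toNNReal ω) ∂μ))) ∧
    ∀ f : ℝ → ℝ, IsProfile f → ∀ a ε : ℝ, 0 < a → a < 1 → 0 < ε →
      (∃ c : ℝ, 0 < c ∧ ∀ s : ℤ, (s = 1 ∨ s = -1) → ∀ P : Set ℤ, Invariant P → ∀ δ : ℝ, HasDensity s P δ →
        ∀ᶠ N : ℕ in atTop, c * δ * N ≤ count s (P ∩ Follow f a ε) N) ∧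
      (∀ s : ℤ, (s = 1 ∨ s = -1) → ∀ P : Set ℤ, Invariant P →
        ((∀ x, 0 < s * x → x ∈ P) ↔ Rare s (Pᶜ ∩ Follow f a ε))) ∧
      (∀ s : ℤ, (s = 1 ∨ s = -1) →
        ((∀ (x : ℤ) (p : ℕ), 0 < s * x → 1 ≤ p → T^[p] x = x → x ∈ Known) ↔ Rare s (Other ∩ Follow f a ε))) ∧
      ((∀ (x : ℤ) (p : ℕ), 1 ≤ p → T^[p] x = x → x ∈ Known) ↔
        ∀ s : ℤ, (s = 1 ∨ s = -1) → Rare s (Other ∩ Follow f a ε)) := by
  have hzero : ∀ (s : ℤ) (Q : Set ℤ), (∀ n : ℕ, 1 ≤ n → s * (n : ℤ) ∉ Q) → Rare s Q := by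
    intro s Q hQ η hη
    apply Eventually.frequently
    filter_upwards with N
    have : count s Q N = 0 := by
      unfold count
      have e : {n : ℕ | 1 ≤ n ∧ n ≤ N ∧ s * (n : ℤ) ∈ Q} = ∅ := by
        ext n
        simp only [Set.mem_ofPred_eq, Set.mem_empty_iff_false, iff_false]
        rintro ⟨h1, _, h3⟩
        exact hQ n h1 h3
      rw [e, Set.ncard_empty]
    rw [this]
    simp only [Nat.cast_zero]
    positivity
  have hpos : ∀ (s : ℤ), (s = 1 ∨ s = -1) → ∀ n : ℕ, 1 ≤ n → 0 < s * (s * (n : ℤ)) := by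
    intro s hs n hn
    rcases hs with rfl | rfl <;> omega
  refine ⟨?_, ?_⟩
  · intro s hs P hP
    obtain ⟨δ, h0, h1, h2, h3, h4⟩ := Pool.Agent.H55.BG.dens hs (P := P) hP
    refine ⟨δ, h0, h1, h2, h3, h4, ?_⟩
    intro Ω _ μ _ B hB a ha ha1 F hF
    exact Pool.Agent.H55.BG.lim odd_one isCoprime_one_left hs (P := P) hP h2 Ω μ B hB ha ha1 F hF.1 hF.2
  · intro f hf a ε ha ha1 hε
    obtain ⟨c, hc, hlow⟩ := Pool.Agent.H55.BG.low odd_one isCoprime_one_left hf.1 hf.2 ha ha1 hε
    have hlow' : ∀ s : ℤ, (s = 1 ∨ s = -1) → ∀ P : Set ℤ, Invariant P → ∀ δ : ℝ, HasDensity s P δ →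
        ∀ᶠ N : ℕ in atTop, c * δ * N ≤ count s (P ∩ Follow f a ε) N := fun s hs P hP δ hδ => hlow s hs P hP δ hδ
    have hcrit : ∀ s : ℤ, (s = 1 ∨ s = -1) → ∀ P : Set ℤ, Invariant P → Rare s (P ∩ Follow f a ε) →
        ∀ x, 0 < s * x → x ∉ P := by
      intro s hs P hP hr x hx hxP
      obtain ⟨δ, h0, h1, h2, h3, h4⟩ := Pool.Agent.H55.BG.dens hs (P := P) hP
      have hδ : 0 < δ := h3.2 ⟨x, hxP, hx⟩
      have h5 := hlow' s hs P hP δ h2
      have h6 := hr (c * δ / 2) (by positivity)
      obtain ⟨N, hN, hN1, hN2⟩ := (h6.and_eventually (h5.and (eventually_ge_atTop 1))).exists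
      have hN0 : (0 : ℝ) < N := by exact_mod_cast hN2
      have h7 : c * δ * N ≤ c * δ / 2 * N := hN1.trans hN
      have h8 : 0 < c * δ * N := by positivity
      linarith
    have h4 : ∀ s : ℤ, (s = 1 ∨ s = -1) →
        ((∀ (x : ℤ) (p : ℕ), 0 < s * x → 1 ≤ p → T^[p] x = x → x ∈ Known) ↔ Rare s (Other ∩ Follow f a ε)) := by
      intro s hs
      constructor
      · intro h
        apply hzero
        rintro n hn ⟨⟨k, p, hp, h1, h2⟩, _⟩
        exact h2 (h _ p ((Pool.Agent.H499R2.ND.Td_one_iter_sign hs (s * (n : ℤ)) k).1 (hpos s hs n hn)) hp h1)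
      · intro h x p hx hp hxp
        by_contra hcon
        exact hcrit s hs Other other_inv h x hx ⟨0, p, hp, hxp, hcon⟩
    refine ⟨⟨c, hc, hlow'⟩, ?_, h4, ?_⟩
    · intro s hs P hP
      constructor
      · intro h
        apply hzero
        intro n hn hh
        exact hh.1 (h _ (hpos s hs n hn))
      · intro h x hx
        by_contra hcon
        exact hcrit s hs Pᶜ (fun y => not_congr (hP y)) h x hx hcon
    · constructor
      · intro h s hs
        exact (h4 s hs).1 fun x p _ hp hxp => h x p hp hxp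
      · intro h x p hp hxp
        rcases lt_trichotomy x 0 with hx | hx | hx
        · exact (h4 (-1) (Or.inr rfl)).2 (h (-1) (Or.inr rfl)) x p (by omega) hp hxp
        · subst hx
          simp [Known]
        · exact (h4 1 (Or.inl rfl)).2 (h 1 (Or.inl rfl)) x p (by omega) hp hxp

end Pool.Agent.Results.MP_edb5be_nt.FateAndShape
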