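import Mathlib
import Pool.Agent.H15.Asc4.Cycle
import Pool.Agent.H15.Cyc.Bridge

set_option autoImplicit false

/-!
Every cycle of the `3x+1` map on the integers with at most four ascents in the cyclic sequence of
its local minima is one of the five known cycles.
-/

namespace Pool.Agent.Results.MP_edb5be_nt.FewAscents

/-- The `3x+1` map on the integers. -/
def T (x : ℤ) : ℤ := if x % 2 = 0 then x / 2 else (3 * x + 1) / 2

/-- A cycle of `T`: a set `{x, T x, ..., T^(p-1) x}` with `p ≥ 1` and `T^p x = x`. -/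
def IsCycle (Z : Finset ℤ) : Prop :=
  ∃ x : ℤ, ∃ p : ℕ, 1 ≤ p ∧ T^[p] x = x ∧ Z = (Finset.range p).image (fun i => T^[i] x)

/-- `x` is a local minimum of the cycle `Z`: an odd element whose predecessor in `Z` is even
(and therefore `2x`). The local minima are the elements at which the blocks (some odd elements, then
some even ones) start, which make up the cycle: an `m`-cycle has `m` local minima. -/
def IsMin (Z : Finset ℤ) (x : ℤ) : Prop := x ∈ Z ∧ x % 2 = 1 ∧ 2 * x ∈ Z

open Classical in
/-- The ascents: the local minima `x` of `Z` such that the next local minimum `T^j x` of the orbit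
has a larger absolute value. -/
noncomputable def ascents (Z : Finset ℤ) : Finset ℤ :=
  Z.filter fun x => IsMin Z x ∧ ∃ j, 1 ≤ j ∧ IsMin Z (T^[j] x) ∧
    (∀ i, 1 ≤ i → i < j → ¬ IsMin Z (T^[i] x)) ∧ |x| < |T^[j] x|

/-- The cycles with at most four ascents, and any number of local minima, are the five known ones. -/
theorem result (Z : Finset ℤ) :
    (IsCycle Z ∧ (ascents Z).card ≤ 4) ↔
      (Z = {1, 2} ∨ Z = {0} ∨ Z = {-1} ∨ Z = {-5, -7, -10} ∨
        Z = {-17, -25, -37, -55, -82, -41, -61, -91, -136, -68, -34}) := by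
  have hle : ∀ Z : Finset ℤ, (Z.filter fun x => x % 2 = 1 ∧ 2 * x ∈ Z).card ≤ 4 →
      (ascents Z).card ≤ 4 := by
    intro Z h
    refine (Finset.card_le_card ?_).trans h
    intro x hx
    classical
    have h1 := Finset.mem_filter.1 hx
    exact Finset.mem_filter.2 ⟨h1.1, h1.2.1.2.1, h1.2.1.2.2⟩
  constructor
  · rintro ⟨hZ, hc⟩
    obtain ⟨x, h1, h2⟩ := Pool.Agent.H15.Asc4.cycle_small (Z := Z) hZ hc
    have hZ' : Pool.Agent.H15.Cyc.IsCycle Z := hZ
    obtain ⟨j, hj⟩ := Pool.Agent.H15.Cyc.reach x h2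
    exact hZ'.classify (hZ'.closed h1 j) hj
  · rintro (rfl | rfl | rfl | rfl | rfl)
    · exact ⟨⟨1, 2, by decide, by decide, by decide⟩, hle _ (by decide)⟩
    · exact ⟨⟨0, 1, by decide, by decide, by decide⟩, hle _ (by decide)⟩
    · exact ⟨⟨-1, 1, by decide, by decide, by decide⟩, hle _ (by decide)⟩
    · exact ⟨⟨-5, 3, by decide, by decide, by decide⟩, hle _ (by decide)⟩
    · exact ⟨⟨-17, 11, by decide, by decide, by decide⟩, hle _ (by decide)⟩

end Pool.Agent.Results.MP_edb5be_nt.FewAscents
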