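import Mathlib
import Pool.Agent.H15.Cyc.Bridge

set_option autoImplicit false

/-!
Every cycle of the `3x+1` map on the integers with at most `32` blocks of two or more consecutive
odd elements is one of the five known cycles.
-/

namespace Pool.Agent.Results.MP_edb5be_nt.FewLongOddRuns

/-- The `3x+1` map on the integers. -/
def T (x : ℤ) : ℤ := if x % 2 = 0 then x / 2 else (3 * x + 1) / 2

/-- A cycle of `T`: a set `{x, T x, ..., T^(p-1) x}` with `p ≥ 1` and `T^p x = x`. -/
def IsCycle (Z : Finset ℤ) : Prop :=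
  ∃ x : ℤ, ∃ p : ℕ, 1 ≤ p ∧ T^[p] x = x ∧ Z = (Finset.range p).image (fun i => T^[i] x)

/-- The elements `x` of `Z` with `x ≡ 3 (mod 4)` and `2x ∈ Z`. In a cycle `Z` these are the odd
elements which are preceded by an even element (namely `2x`) and followed by an odd one
(as `T x` is odd exactly when `x ≡ 3 (mod 4)`): the first elements of the maximal blocks of at least
two consecutive odd elements. -/
def longRuns (Z : Finset ℤ) : Finset ℤ := Z.filter (fun x => x % 4 = 3 ∧ 2 * x ∈ Z)

theorem result (Z : Finset ℤ) :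
    (IsCycle Z ∧ (longRuns Z).card ≤ 32) ↔
      (Z = {1, 2} ∨ Z = {0} ∨ Z = {-1} ∨ Z = {-5, -7, -10} ∨
        Z = {-17, -25, -37, -55, -82, -41, -61, -91, -136, -68, -34}) := by
  constructor
  · rintro ⟨hZ, hc⟩
    have hZ' : Pool.Agent.H15.Cyc.IsCycle Z := hZ
    obtain ⟨x, h1, h2⟩ := hZ'.known hc
    exact hZ'.classify h1 h2
  · rintro (rfl | rfl | rfl | rfl | rfl)
    · exact ⟨⟨1, 2, by decide, by decide, by decide⟩, by decide⟩
    · exact ⟨⟨0, 1, by decide, by decide, by decide⟩, by decide⟩
    · exact ⟨⟨-1, 1, by decide, by decide, by decide⟩, by decide⟩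
    · exact ⟨⟨-5, 3, by decide, by decide, by decide⟩, by decide⟩
    · exact ⟨⟨-17, 11, by decide, by decide, by decide⟩, by decide⟩

end Pool.Agent.Results.MP_edb5be_nt.FewLongOddRuns
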