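import Mathlib
import Pool.Agent.H15.Cx.Explicit

set_option autoImplicit false

/-!
The cycles of the `3x+1` map on the integers with few parity words and moderate oscillation.
-/

namespace Pool.Agent.Results.MP_edb5be_nt.LowComplexity

/-- The `3x+1` map on the integers. -/
def T (x : ℤ) : ℤ := if x % 2 = 0 then x / 2 else (3 * x + 1) / 2

/-- A cycle of `T`: a set `{x, T x, ..., T^(p-1) x}` with `p ≥ 1` and `T^p x = x`. -/
def IsCycle (Z : Finset ℤ) : Prop :=
  ∃ x : ℤ, ∃ p : ℕ, 1 ≤ p ∧ T^[p] x = x ∧ Z = (Finset.range p).image (fun i => T^[i] x)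

/-- The parities of `x, T x, ..., T^(L-1) x`. -/
def word (L : ℕ) (x : ℤ) : List ℤ := (List.range L).map fun i => T^[i] x % 2

/-- The parity words of length `L` which can be read along `Z`. -/
def words (Z : Finset ℤ) (L : ℕ) : Finset (List ℤ) := Z.image (word L)

/-- The five known cycles are exactly the cycles `Z` whose elements differ in size by a factor of at
most `10^50` and which have, for every `L`, at most `10^4 * 2^(L/100)` parity words of length `L`. -/
theorem result (Z : Finset ℤ) :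
    (IsCycle Z ∧ (∀ x ∈ Z, ∀ y ∈ Z, |x| ≤ 10 ^ 50 * |y|) ∧
      ∀ L : ℕ, ((words Z L).card : ℝ) ≤ 10 ^ 4 * (2 : ℝ) ^ ((L : ℝ) / 100)) ↔
      (Z = {1, 2} ∨ Z = {0} ∨ Z = {-1} ∨ Z = {-5, -7, -10} ∨
        Z = {-17, -25, -37, -55, -82, -41, -61, -91, -136, -68, -34}) := by
  have hw : ∀ Z : Finset ℤ, Z.card ≤ 11 → ∀ L : ℕ,
      ((words Z L).card : ℝ) ≤ 10 ^ 4 * (2 : ℝ) ^ ((L : ℝ) / 100) := by
    intro Z hZ L
    have h1 : (words Z L).card ≤ 11 := Finset.card_image_le.trans hZ
    have h2 : ((words Z L).card : ℝ) ≤ 11 := by exact_mod_cast h1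
    have h3 : (1 : ℝ) ≤ (2 : ℝ) ^ ((L : ℝ) / 100) :=
      Real.one_le_rpow (by norm_num) (by positivity)
    linarith
  constructor
  · rintro ⟨hZ, hosc, hwd⟩
    have hZ' : Pool.Agent.H15.Cyc.IsCycle Z := hZ
    obtain ⟨x, h1, h2⟩ := Pool.Agent.H15.Cx.known hZ' hosc hwd
    exact hZ'.classify h1 h2
  · rintro (rfl | rfl | rfl | rfl | rfl)
    · exact ⟨⟨1, 2, by decide, by decide, by decide⟩, by decide, hw _ (by decide)⟩
    · exact ⟨⟨0, 1, by decide, by decide, by decide⟩, by decide, hw _ (by decide)⟩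
    · exact ⟨⟨-1, 1, by decide, by decide, by decide⟩, by decide, hw _ (by decide)⟩
    · exact ⟨⟨-5, 3, by decide, by decide, by decide⟩, by decide, hw _ (by decide)⟩
    · exact ⟨⟨-17, 11, by decide, by decide, by decide⟩, by decide, hw _ (by decide)⟩

end Pool.Agent.Results.MP_edb5be_nt.LowComplexity
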